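import Mathlib
import Pool.Agent.H.MP_31a5ad_lc.A

set_option autoImplicit false

namespace Pool.Agent.Results.MP_31a5ad_lc.Yes

open Cardinal Pool.Agent.H.MP_31a5ad_lc

theorem result (X : Set (ℕ → ℕ)) (hX : ¬ IsMeagre X) (h : #X ≤ ℵ₁) :
    ∃ (T : Type) (_ : PartialOrder T) (_ : WellFoundedLT T), Aron T ∧ #T = ℵ₁ ∧ ¬ Spz T :=
  main hX h

end Pool.Agent.Results.MP_31a5ad_lc.Yes
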